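import Pool.Agent.LUB.Stmts

/-!
# Squad LUB, module CLA: the universal family of a class
-/

set_option autoImplicit false

open Polynomial

namespace Pool.Agent.LUB.H42

noncomputable section

/-- The universal polynomial. -/
def FF {S : Type} [CommRing S] (n r D : ℕ) (c : Idx n r D → S) (T : S) : S[X] :=
  X ^ n + ∑ j : Fin n, C (∑ k : Fin (D + 1), c (Sum.inl (j, k)) * T ^ (k : ℕ)) * X ^ (j : ℕ)

/-- The universal units. -/
def UU {S : Type} [CommRing S] (n r D : ℕ) (c : Idx n r D → S) (T : S) (i : Fin r) : S[X] :=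
  ∑ j : Fin (D + 1), C (∑ k : Fin (D + 1), c (Sum.inr (i, j, k)) * T ^ (k : ℕ)) * X ^ (j : ℕ)

theorem FF_map {S S' : Type} [CommRing S] [CommRing S'] (φ : S →+* S') (n r D : ℕ)
    (c : Idx n r D → S) (T : S) :
    (FF n r D c T).map φ = FF n r D (fun s => φ (c s)) (φ T) := by
  simp only [FF, Polynomial.map_add, Polynomial.map_pow, map_X, Polynomial.map_sum,
    Polynomial.map_mul, map_C, map_sum, map_mul, map_pow]

theorem UU_map {S S' : Type} [CommRing S] [CommRing S'] (φ : S →+* S') (n r D : ℕ)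
    (c : Idx n r D → S) (T : S) (i : Fin r) :
    (UU n r D c T i).map φ = UU n r D (fun s => φ (c s)) (φ T) i := by
  simp only [UU, Polynomial.map_pow, map_X, Polynomial.map_sum,
    Polynomial.map_mul, map_C, map_sum, map_mul, map_pow]

theorem FF_deg {S : Type} [CommRing S] (n r D : ℕ) (c : Idx n r D → S) (T : S) :
    (∑ j : Fin n, C (∑ k : Fin (D + 1), c (Sum.inl (j, k)) * T ^ (k : ℕ)) *
      X ^ (j : ℕ) : S[X]).degree < n := by
  exact degree_sum_fin_lt (fun j : Fin n => ∑ k : Fin (D + 1), c (Sum.inl (j, k)) * T ^ (k : ℕ))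

theorem FF_monic {S : Type} [CommRing S] (n r D : ℕ) (c : Idx n r D → S) (T : S) :
    (FF n r D c T).Monic := by
  unfold FF
  exact monic_X_pow_add (FF_deg n r D c T)

theorem FF_degree {S : Type} [CommRing S] [Nontrivial S] (n r D : ℕ) (c : Idx n r D → S) (T : S) :
    (FF n r D c T).degree = n := by
  unfold FF
  rw [degree_add_eq_left_of_degree_lt]
  · exact degree_X_pow n
  · rw [degree_X_pow]
    exact FF_deg n r D c T

theorem C_dvd_of_map {S : Type} [CommRing S] (q : S) (P Q : S[X])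
    (h : P.map (Ideal.Quotient.mk (Ideal.span {q})) = Q.map (Ideal.Quotient.mk (Ideal.span {q}))) :
    C q ∣ P - Q := by
  rw [C_dvd_iff_dvd_coeff]
  intro i
  have h1 := congrArg (fun R => R.coeff i) h
  simp only [coeff_map] at h1
  rw [coeff_sub, ← Ideal.mem_span_singleton]
  exact (Ideal.Quotient.mk_eq_mk_iff_sub_mem _ _).1 h1

theorem mk_eq_of_dvd {S : Type} [CommRing S] (q x y : S) (h : q ∣ x - y) :
    Ideal.Quotient.mk (Ideal.span {q}) x = Ideal.Quotient.mk (Ideal.span {q}) y :=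
  (Ideal.Quotient.mk_eq_mk_iff_sub_mem _ _).2 (Ideal.mem_span_singleton.2 h)

theorem FF_cong {S : Type} [CommRing S] (n r D : ℕ) (q : S) (c c' : Idx n r D → S) (T T' : S)
    (hc : ∀ s, q ∣ c s - c' s) (hT : q ∣ T - T') :
    C q ∣ FF n r D c T - FF n r D c' T' := by
  apply C_dvd_of_map
  rw [FF_map, FF_map, mk_eq_of_dvd q T T' hT]
  congr 1
  funext s
  exact mk_eq_of_dvd q _ _ (hc s)

theorem UU_cong {S : Type} [CommRing S] (n r D : ℕ) (q : S) (c c' : Idx n r D → S) (T T' : S)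
    (hc : ∀ s, q ∣ c s - c' s) (hT : q ∣ T - T') (i : Fin r) :
    C q ∣ UU n r D c T i - UU n r D c' T' i := by
  apply C_dvd_of_map
  rw [UU_map, UU_map, mk_eq_of_dvd q T T' hT]
  congr 1
  funext s
  exact mk_eq_of_dvd q _ _ (hc s)

theorem eval_coeff {S : Type} [CommRing S] (D : ℕ) (g : ℤ[X]) (hg : g.natDegree ≤ D) (T : S) :
    eval₂RingHom (Int.castRingHom S) T g = ∑ k : Fin (D + 1), (g.coeff k : S) * T ^ (k : ℕ) := by
  rw [coe_eval₂RingHom, eval₂_eq_sum_range' _ (Nat.lt_succ_of_le hg), Finset.sum_range]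
  rfl

theorem spr_f {S : Type} [CommRing S] (n r D : ℕ) (f : ℤ[X][X]) (u : Fin r → ℤ[X][X])
    (h : Fam n D f u) (T : S) :
    spr f T = FF n r D (fun s => (par n D f u s : S)) T := by
  obtain ⟨h1, h2, h3, h4⟩ := h
  have h5 := h1.as_sum
  rw [h2] at h5
  unfold spr
  conv_lhs => rw [h5]
  simp only [FF, Polynomial.map_add, Polynomial.map_pow, map_X, Polynomial.map_sum,
    Polynomial.map_mul, map_C, Finset.sum_range]
  congr 1
  refine Finset.sum_congr rfl fun j _ => ?_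
  rw [eval_coeff D _ (h3 j)]
  rfl

theorem spr_u {S : Type} [CommRing S] (n r D : ℕ) (f : ℤ[X][X]) (u : Fin r → ℤ[X][X])
    (h : Fam n D f u) (T : S) (i : Fin r) :
    spr (u i) T = UU n r D (fun s => (par n D f u s : S)) T i := by
  obtain ⟨h1, h2, h3, h4⟩ := h
  have h5 := as_sum_range' (u i) (D + 1) (Nat.lt_succ_of_le (h4 i).1)
  unfold spr
  conv_lhs => rw [h5]
  simp only [UU, Polynomial.map_sum, Finset.sum_range]
  refine Finset.sum_congr rfl fun j _ => ?_
  rw [map_monomial, ← C_mul_X_pow_eq_monomial, eval_coeff D _ ((h4 i).2 j)]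
  rfl

theorem sp_eq_spr (f : ℤ[X][X]) (t : ℤ) : sp f t = spr f t := by
  unfold sp spr
  congr 1

theorem logMod_map (p : ℕ) [Fact p.Prime] {S S' : Type} [CommRing S] [CommRing S']
    [Algebra ℤ_[p] S] [Algebra ℤ_[p] S'] (Φ : S →+* S')
    (hΦ : ∀ c : ℤ_[p], Φ (algebraMap ℤ_[p] S c) = algebraMap ℤ_[p] S' c) (F w l : S[X])
    (h : LogMod p F w l) : LogMod p (F.map Φ) (w.map Φ) (l.map Φ) := by
  intro N
  obtain ⟨a, b, hab⟩ := h N
  refine ⟨a.map Φ, b.map Φ, ?_⟩
  rw [hab]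
  simp only [Polynomial.map_add, Polynomial.map_sum, Polynomial.map_mul, map_C, Polynomial.map_pow,
    hΦ, map_pow, map_natCast, Polynomial.map_natCast]

theorem cla : ClaStmt := by
  intro hevh hpcs hell hunp p _ n r D a T₁ hex
  obtain ⟨f₀, u₀, ⟨hfam₀, hcls₀⟩, t, ht, hunit⟩ := hex
  -- the polynomials over the integers
  have hp3 : (p : ℤ) ∣ (p : ℤ) ^ 3 := dvd_pow_self _ (by norm_num)
  obtain ⟨M, hM, hMU⟩ := hunp p r (FF n r D a T₁) (fun i => UU n r D a T₁ i) (FF_monic n r D a T₁) (by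
    intro i
    obtain ⟨A, B, hAB⟩ := hunit i
    have h1 : C (p : ℤ) ∣ FF n r D (fun s => ((par n D f₀ u₀ s : ℤ) : ℤ)) t - FF n r D a T₁ :=
      FF_cong n r D (p : ℤ) _ _ _ _ (fun s => dvd_trans hp3 (hcls₀ s)) (dvd_trans hp3 ht)
    have h2 : C (p : ℤ) ∣ UU n r D (fun s => ((par n D f₀ u₀ s : ℤ) : ℤ)) t i - UU n r D a T₁ i :=
      UU_cong n r D (p : ℤ) _ _ _ _ (fun s => dvd_trans hp3 (hcls₀ s)) (dvd_trans hp3 ht) i
    have h3 := spr_f n r D f₀ u₀ hfam₀ t
    have h4 := spr_u n r D f₀ u₀ hfam₀ t i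
    rw [sp_eq_spr, sp_eq_spr, h3, h4] at hAB
    obtain ⟨e, he⟩ := h1
    obtain ⟨e', he'⟩ := h2
    refine ⟨A, B, -(e' * A + e * B), ?_⟩
    simp only [Int.cast_id] at he he' hAB
    linear_combination hAB - he * B - he' * A)
  -- the universal ring
  set R := MvPowerSeries (Idx n r D) ℤ_[p] with hR
  set S := PowerSeries R with hS
  set Tu : S := (T₁ : S) + (p : S) ^ 2 * PowerSeries.X with hTu
  set A : Idx n r D → S := fun s => (a s : S) + (p : S) ^ 2 * PowerSeries.C (MvPowerSeries.X s)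
    with hA
  set F : S[X] := FF n r D A Tu with hF
  have hFc : C ((p : S) ^ 2) ∣ F - (FF n r D a T₁).map (Int.castRingHom S) := by
    rw [FF_map]
    refine FF_cong n r D _ _ _ _ _ (fun s => ?_) ?_
    · exact ⟨PowerSeries.C (MvPowerSeries.X s), by simp [hA]⟩
    · exact ⟨PowerSeries.X, by simp [hTu]⟩
  have hUc : ∀ i, C ((p : S) ^ 2) ∣ UU n r D A Tu i - (UU n r D a T₁ i).map (Int.castRingHom S) := by
    intro i
    rw [UU_map]
    refine UU_cong n r D _ _ _ _ _ (fun s => ?_) ?_ i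
    · exact ⟨PowerSeries.C (MvPowerSeries.X s), by simp [hA]⟩
    · exact ⟨PowerSeries.X, by simp [hTu]⟩
  have hw : ∀ i, ∃ w b : S[X], UU n r D A Tu i ^ M = 1 + C ((p : S) ^ 2) * w + F * b := by
    intro i
    obtain ⟨x, y, hxy⟩ := hMU i
    have h1 := congrArg (Polynomial.map (Int.castRingHom S)) hxy
    have hCp : (C ((p : ℤ) ^ 2) : ℤ[X]).map (Int.castRingHom S) = C ((p : S) ^ 2) := by simp
    simp only [Polynomial.map_pow, Polynomial.map_add, Polynomial.map_mul, Polynomial.map_one,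
      hCp] at h1
    obtain ⟨e, he⟩ := hFc
    obtain ⟨e', he'⟩ := dvd_trans (hUc i) (sub_dvd_pow_sub_pow (UU n r D A Tu i)
      ((UU n r D a T₁ i).map (Int.castRingHom S)) M)
    refine ⟨x.map (Int.castRingHom S) + e' - e * y.map (Int.castRingHom S),
      y.map (Int.castRingHom S), ?_⟩
    linear_combination h1 + he' - he * y.map (Int.castRingHom S)
  choose w b hwb using hw
  have hl : ∀ i, ∃ l : S[X], l.degree < F.degree ∧ LogMod p F (w i) l := fun i =>
    hell p S (hpcs p (Idx n r D)) F (w i) (FF_monic n r D A Tu)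
  choose l hld hlm using hl
  refine ⟨M, hM, R, inferInstance, inferInstance,
    fun J => (Matrix.of fun i k => (l i).coeff (J k)).det, ?_⟩
  intro f u ⟨hfam, hcls⟩ T hT
  -- the specialization
  have hx : ∀ s, ∃ x : ℤ_[p], ‖x‖ < 1 ∧ (p : ℤ_[p]) ^ 2 * x = (par n D f u s : ℤ_[p]) - a s := by
    intro s
    obtain ⟨y, hy⟩ := hcls s
    refine ⟨(p : ℤ_[p]) * y, (PadicInt.norm_lt_one_iff_dvd _).2 (dvd_mul_right _ _), ?_⟩
    · have h1 := congrArg (fun z : ℤ => (z : ℤ_[p])) hy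
      push_cast at h1
      rw [h1]
      ring
  choose x hx1 hx2 using hx
  obtain ⟨φ, hφ⟩ := hevh p (Idx n r D) x hx1
  set Φ : S →+* PowerSeries ℤ_[p] := PowerSeries.map (φ : R →+* ℤ_[p]) with hΦ
  have hΦX : Φ PowerSeries.X = PowerSeries.X := PowerSeries.map_X _
  have hΦT : Φ Tu = T := by
    rw [hT, hTu, map_add, map_mul, map_pow, map_natCast, map_intCast, hΦX, map_intCast]
  have hΦA : ∀ s, Φ (A s) = (par n D f u s : PowerSeries ℤ_[p]) := by
    intro s
    have h1 : Φ (PowerSeries.C (MvPowerSeries.X s)) = PowerSeries.C (x s) := by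
      rw [hΦ, PowerSeries.map_C]
      congr 1
      exact hφ s
    have h2 : (p : PowerSeries ℤ_[p]) ^ 2 * PowerSeries.C (x s) =
        (par n D f u s : PowerSeries ℤ_[p]) - a s := by
      have := congrArg (PowerSeries.C (R := ℤ_[p])) (hx2 s)
      simpa using this
    have h3 : A s = (a s : S) + (p : S) ^ 2 * PowerSeries.C (MvPowerSeries.X s) := rfl
    rw [h3, map_add, map_mul, map_pow, map_natCast, map_intCast, h1, h2]
    ring
  have hΦF : F.map Φ = spr f T := by
    rw [hF, FF_map, hΦT, spr_f n r D f u hfam]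
    congr 1
    funext s
    exact hΦA s
  have hΦU : ∀ i, (UU n r D A Tu i).map Φ = spr (u i) T := by
    intro i
    rw [UU_map, hΦT, spr_u n r D f u hfam]
    congr 1
    funext s
    exact hΦA s
  have hΦalg : ∀ c : ℤ_[p], Φ (algebraMap ℤ_[p] S c) = algebraMap ℤ_[p] (PowerSeries ℤ_[p]) c := by
    intro c
    have h1 : algebraMap ℤ_[p] S c = PowerSeries.C (algebraMap ℤ_[p] R c) :=
      PowerSeries.algebraMap_apply
    have h2 : algebraMap ℤ_[p] (PowerSeries ℤ_[p]) c = PowerSeries.C c :=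
      PowerSeries.algebraMap_apply
    rw [h1, h2, hΦ, PowerSeries.map_C]
    congr 1
    exact φ.commutes c
  refine ⟨(φ : R →+* ℤ_[p]), fun i => (w i).map Φ, fun i => (b i).map Φ, fun i => (l i).map Φ,
    ?_, ?_, ?_, ?_⟩
  · intro i
    have h1 := congrArg (Polynomial.map Φ) (hwb i)
    have hCp : (C ((p : S) ^ 2) : S[X]).map Φ = C ((p : PowerSeries ℤ_[p]) ^ 2) := by simp
    simp only [Polynomial.map_pow, Polynomial.map_add, Polynomial.map_mul, Polynomial.map_one,
      hCp, hΦU, hΦF] at h1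
    exact h1
  · intro i
    have h1 := logMod_map p Φ hΦalg F (w i) (l i) (hlm i)
    rw [hΦF] at h1
    exact h1
  · intro i
    refine lt_of_le_of_lt degree_map_le (lt_of_lt_of_eq (hld i) ?_)
    exact FF_degree n r D A Tu
  · intro J
    rw [RingHom.map_det]
    refine congrArg Matrix.det (Matrix.ext fun i k => ?_)
    change Φ ((l i).coeff (J k)) = ((l i).map Φ).coeff (J k)
    rw [coeff_map]

end

end Pool.Agent.LUB.H42
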