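import Pool.Agent.LUB.Stmts
import Pool.Agent.Helper89_LUB.EVH
import Pool.Agent.Helper52_LUB.STR
import Pool.Agent.Helper52_LUB.UNI
import Pool.Agent.Helper87_LUB.NOE
import Pool.Agent.Helper79_LUB.PCS
import Pool.Agent.Helper35_LUB.ELL
import Pool.Agent.Helper35_LUB.BAS
import Pool.Agent.Helper69_LUB.LGD
import Pool.Agent.Helper25_LUB.UNP
import Pool.Agent.Helper53_LUB.INV
import Pool.Agent.Helper83_LUB.HLG
import Pool.Agent.Helper83_LUB.CRI
import Pool.Agent.Helper80_LUB.OMG
import Pool.Agent.Helper32_LUB.SPH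
import Pool.Agent.Helper32_LUB.CST
import Pool.Agent.Helper31_LUB.SPF
import Pool.Agent.Helper31_LUB.CLB
import Pool.Agent.Helper22_LUB.BND
import Pool.Agent.Helper22_LUB.KIL
import Pool.Agent.Helper22_LUB.OSC
import Pool.Agent.Helper22_LUB.DEP
import Pool.Agent.Helper97_LUB.RFL
import Pool.Agent.Helper97_LUB.OSA
import Pool.Agent.Helper86_LUB.OSB
import Pool.Agent.Helper86_LUB.LIN
import Pool.Agent.Helper61_LUB.OST
import Pool.Agent.Helper61_LUB.FRK
import Pool.Agent.Helper13_LUB.DPL
import Pool.Agent.Helper90_LUB.AXK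
import Pool.Agent.Helper88_LUB.NVN
import Pool.Agent.Helper44_LUB.TOT
import Pool.Agent.Helper42_LUB.CLA

/-!
# Squad LUB: the final theorem
-/

set_option autoImplicit false

namespace Pool.Agent.LUB.H42

theorem unpConcl : UnpConcl := H25.unp H52.uni

theorem criConcl : CriConcl := H83C.cri H83.hlg

theorem rflConcl : RflConcl := H97.rflRow H32.sph H31.spf H22.bnd H22.kil

theorem axkConcl : AxkConcl := H90.axk (H22.osc (H61.ost H97.osa H86.osb)) H35.bas H13.dpl

theorem nvnConcl : NvnConcl :=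
  H88.nvn H69.lgd H80.omg H32.sph H31.spf rflConcl H32.cst axkConcl H22.dep

theorem claConcl : ClaConcl := cla H89.evh H79.pcs H35.ell unpConcl

theorem main : MainStmt :=
  H44.tot (H31.clb H89.evh H52.str H87.noe H53.inv criConcl nvnConcl claConcl)

end Pool.Agent.LUB.H42
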