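import Pool.Agent.Helper31_Leo.UnifSig
import Pool.Agent.Helper42_LUB.Final

/-!
# Squad LUB: codimension one in the family with all coefficients as parameters
-/

set_option autoImplicit false
set_option linter.unusedSectionVars false

open Polynomial NumberField Pool.Agent.Helper85_Leo Pool.Agent.Helper65_Leo
open Pool.Agent.Helper65_Dens (Par gpoly fpoly gpoly_monic gpoly_natDegree gpoly_map fpoly_monic
  fpoly_natDegree gpoly_update_ne gpoly_update_self prod_gpoly_monic prod_gpoly_natDegree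
  Ix degs prodPoly ixMap ixMap_bijective prod_gpoly_ixMap Sep Rt rt card_le_of_subset_Icc)
open Pool.Agent.Helper31_Leo (cnt cnt_mono cnt_union cnt_univ cnt_biUnion fiber_count FailsN)

namespace Pool.Agent.LUB.H42B

section thin

variable {κ : Type} [Fintype κ] [DecidableEq κ]

/-- Sets of codimension one. -/
def Thin (B : Set (κ → ℤ)) : Prop :=
  ∃ C : ℕ, ∀ (lo : κ → ℤ) (N : κ → ℕ) (M : ℕ), (∀ q, M ≤ N q) → M * cnt lo N B ≤ C * ∏ q, N q

theorem Thin.mono {A B : Set (κ → ℤ)} (hB : Thin B) (h : A ⊆ B) : Thin A := by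
  obtain ⟨C, hC⟩ := hB
  exact ⟨C, fun lo N M hM => (Nat.mul_le_mul_left _ (cnt_mono lo N h)).trans (hC lo N M hM)⟩

theorem Thin.union {A B : Set (κ → ℤ)} (hA : Thin A) (hB : Thin B) : Thin (A ∪ B) := by
  obtain ⟨C, hC⟩ := hA
  obtain ⟨C', hC'⟩ := hB
  refine ⟨C + C', fun lo N M hM => ?_⟩
  calc M * cnt lo N (A ∪ B) ≤ M * (cnt lo N A + cnt lo N B) :=
        Nat.mul_le_mul_left _ (cnt_union lo N A B)
    _ = M * cnt lo N A + M * cnt lo N B := by ring
    _ ≤ C * ∏ q, N q + C' * ∏ q, N q := Nat.add_le_add (hC lo N M hM) (hC' lo N M hM)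
    _ = _ := by ring

theorem thin_empty : Thin (∅ : Set (κ → ℤ)) := by
  refine ⟨0, fun lo N M _ => ?_⟩
  have : cnt lo N (∅ : Set (κ → ℤ)) = 0 := by
    simp [cnt]
  rw [this]
  simp

theorem thin_iUnion {I : Type} [Finite I] (B : I → Set (κ → ℤ)) (h : ∀ i, Thin (B i)) :
    Thin (⋃ i, B i) := by
  classical
  have := Fintype.ofFinite I
  have h1 : ∀ s : Finset I, Thin (⋃ i ∈ s, B i) := by
    intro s
    induction s using Finset.induction with
    | empty => simpa using thin_empty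
    | insert i s _ ih =>
      rw [Finset.set_biUnion_insert]
      exact (h i).union ih
  have h2 := h1 Finset.univ
  simpa using h2

theorem thin_of_section (B : Set (κ → ℤ)) (q₀ : κ) (c : ℕ)
    (h : ∀ (a : κ → ℤ) (s : Finset ℤ), (∀ t ∈ s, Function.update a q₀ t ∈ B) → s.card ≤ c) :
    Thin B := by
  refine ⟨c, fun lo N M hM => ?_⟩
  have h1 := fiber_count lo N q₀ (A := Set.univ) (S := B) (fun _ _ _ => Set.mem_univ _)
    (Set.subset_univ _) c (fun a s hs => h a s fun t ht => (hs t ht).2)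
  rw [cnt_univ] at h1
  exact (Nat.mul_le_mul_right _ (hM q₀)).trans h1

end thin

/-- Sections in the direction of a constant coefficient. -/
theorem section_lub {ι : Type} [Fintype ι] [DecidableEq ι] {m : ι → ℕ} (p : ℕ)
    [hp : Fact p.Prime] (hm : ∀ i, 0 < m i) (i₀ : ι) : ∃ B : ℕ, ∀ a : Par m → ℤ,
    (∀ i l, i ≠ i₀ → l ≠ i₀ → i ≠ l → IsCoprime ((gpoly m a i).map (Int.castRingHom ℚ))
      ((gpoly m a l).map (Int.castRingHom ℚ))) →
    ∀ s : Finset ℤ, (∀ t ∈ s, FailsN m p (Function.update a ⟨i₀, ⟨0, hm i₀⟩⟩ t)) →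
    s.card ≤ B := by
  classical
  obtain ⟨B, hB⟩ := H86.lin H61.frk H42.main p (∑ i, m i)
  refine ⟨B, fun a hPC s hs => ?_⟩
  let ι' := {l : ι // l ≠ i₀}
  let e : Fin (Fintype.card ι') ≃ ι' := (Fintype.equivFin ι').symm
  let g : Fin (Fintype.card ι') → ℤ[X] := fun l => gpoly m a (e l)
  set Q : ℤ[X] := ∏ l : ι', gpoly m a l with hQ
  set h₀ : ℤ[X] := gpoly m a i₀ - C (a ⟨i₀, ⟨0, hm i₀⟩⟩) with hh₀
  set P : ℤ[X] := h₀ * Q - 1 with hP
  have hsplit : ∀ b : Par m → ℤ, ∏ i, gpoly m b i = gpoly m b i₀ * ∏ l : ι', gpoly m b l := by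
    intro b
    rw [← Finset.mul_prod_erase _ _ (Finset.mem_univ i₀)]
    congr 1
    rw [Finset.prod_subtype (Finset.univ.erase i₀) (p := fun l => l ≠ i₀)
      (fun l => by simp) (fun l => gpoly m b l)]
  have hf : ∀ t, fpoly m (Function.update a ⟨i₀, ⟨0, hm i₀⟩⟩ t) = P - C (-t) * Q := by
    intro t
    unfold fpoly
    rw [hsplit, gpoly_update_self]
    have h1 : ∏ l : ι', gpoly m (Function.update a ⟨i₀, ⟨0, hm i₀⟩⟩ t) l = Q := by
      refine Finset.prod_congr rfl fun l _ => ?_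
      exact gpoly_update_ne a i₀ l l.2 (hm i₀) t
    rw [h1, hP, hh₀, C_sub, C_neg]
    ring
  have hf0 := hf 0
  rw [neg_zero, C_0, zero_mul, sub_zero] at hf0
  have hn : 0 < ∑ i, m i := Finset.sum_pos (fun i _ => hm i) ⟨i₀, Finset.mem_univ _⟩
  have hPm : P.Monic := by rw [← hf0]; exact fpoly_monic _ hn
  have hPdeg : P.natDegree = ∑ i, m i := by rw [← hf0]; exact fpoly_natDegree _
  have hQm : Q.Monic := monic_prod_of_monic _ _ fun l _ => gpoly_monic a l
  have hQdeg : Q.natDegree = ∑ l : ι', m l := by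
    rw [hQ, natDegree_prod_of_monic Finset.univ (fun l : ι' => gpoly m a l)
      fun l _ => gpoly_monic a l]
    exact Finset.sum_congr rfl fun l _ => gpoly_natDegree a l
  have hsumm : ∑ l : ι', m l < ∑ i, m i := by
    have h1 : ∑ i ∈ Finset.univ.erase i₀, m i = ∑ l : ι', m l :=
      Finset.sum_subtype (Finset.univ.erase i₀) (p := fun l => l ≠ i₀)
        (fun l => by simp) (fun l => m l)
    rw [← Finset.add_sum_erase _ _ (Finset.mem_univ i₀), h1]
    have := hm i₀
    omega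
  have hcard : Fintype.card ι = Fintype.card ι' + 1 := by
    have h1 := Fintype.card_subtype_compl (fun l : ι => l = i₀)
    have h2 : 0 < Fintype.card ι := Fintype.card_pos_iff.2 ⟨i₀⟩
    rw [Fintype.card_subtype_eq] at h1
    change Fintype.card ι' = _ at h1
    omega
  have hgQ : ∀ l, g l ∣ Q := fun l =>
    Finset.dvd_prod_of_mem (fun l : ι' => gpoly m a l) (Finset.mem_univ (e l))
  have h1 := hB P Q (Fintype.card ι') g hPm hPdeg hQm.ne_zero (by rw [hQdeg]; exact hsumm)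
    (fun l => by
      change 0 < (gpoly m a (e l)).natDegree
      rw [gpoly_natDegree]
      exact hm _) hgQ
    (fun l => by
      obtain ⟨q, hq⟩ := hgQ l
      exact ⟨-1, h₀ * q, by rw [hP, hq]; ring⟩)
    (fun i l hil => hPC _ _ (e i).2 (e l).2 fun h => hil (e.injective (Subtype.ext h)))
  have h2 : ((s.image fun t => -t : Finset ℤ) : Set ℤ).encard ≤ B := by
    refine le_trans (Set.encard_le_encard ?_) h1
    intro t' ht'
    obtain ⟨t, ht, rfl⟩ := Finset.mem_image.1 (Finset.mem_coe.1 ht')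
    obtain ⟨K, i1, i2, θ, b1, b2, b3, b4, b5⟩ := hs t ht
    refine ⟨K, i1, i2, θ, ?_, b1, b3, by omega, b5⟩
    rw [← hf t]
    exact b2
  rw [Set.encard_coe_eq_coe_finsetCard, Finset.card_image_of_injective _ neg_injective] at h2
  exact_mod_cast h2

variable {r₁ r₂ : ℕ}

/-- The factors are pairwise coprime. -/
theorem sep_coprime {a : Ix r₁ r₂ → ℤ} (h : Sep a) (i l : Fin r₁ ⊕ Fin r₂) (hil : i ≠ l) :
    IsCoprime ((gpoly (degs r₁ r₂) (fun q => a (ixMap q)) i).map (Int.castRingHom ℚ))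
      ((gpoly (degs r₁ r₂) (fun q => a (ixMap q)) l).map (Int.castRingHom ℚ)) := by
  classical
  have hinj : Function.Injective (rt a) := by
    intro o o' hoo
    by_contra hne
    have h1 := h.norm_sub o o' hne
    rw [hoo, sub_self, norm_zero] at h1
    linarith
  have h1 : ((prodPoly a).map (Int.castRingHom ℂ)).Separable := by
    rw [h.map_eq]
    exact separable_prod_X_sub_C_iff.2 hinj
  have h2 : ((prodPoly a).map (Int.castRingHom ℚ)).Separable := by
    have h3 : (prodPoly a).map (Int.castRingHom ℂ) =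
        ((prodPoly a).map (Int.castRingHom ℚ)).map (algebraMap ℚ ℂ) := by
      rw [Polynomial.map_map]
      congr 1
    rw [h3] at h1
    exact (separable_map _).1 h1
  rw [← prod_gpoly_ixMap, ← Finset.mul_prod_erase _ _ (Finset.mem_univ i),
    ← Finset.mul_prod_erase (Finset.univ.erase i) _ (Finset.mem_erase.2 ⟨hil.symm, Finset.mem_univ l⟩),
    ← mul_assoc, Polynomial.map_mul, Polynomial.map_mul] at h2
  exact h2.of_mul_left.isCoprime

/-- Most parameters with definite quadratic factors are well separated. -/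
theorem thin_not_sep : Thin {a : Ix r₁ r₂ → ℤ |
    (∀ j, a (.inr (.inl j)) ^ 2 < 4 * a (.inr (.inr j))) ∧ ¬ Sep a} := by
  have b1 : Thin (⋃ z : {z : Fin r₁ × Fin r₁ // z.1 ≠ z.2}, {a : Ix r₁ r₂ → ℤ |
      |2 * a (.inl z.1.1) - 2 * a (.inl z.1.2)| < 6}) := by
    refine thin_iUnion _ fun z => thin_of_section _ (.inl z.1.1) 6 fun a s hs => ?_
    refine card_le_of_subset_Icc (l := a (.inl z.1.2) - 3) fun t ht => ?_
    have h1 := hs t ht
    have h2 : (Sum.inl z.1.2 : Ix r₁ r₂) ≠ Sum.inl z.1.1 := fun h => z.2 (Sum.inl_injective h).symm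
    change |2 * Function.update a (.inl z.1.1) t (.inl z.1.1) -
      2 * Function.update a (.inl z.1.1) t (.inl z.1.2)| < 6 at h1
    rw [Function.update_self, Function.update_of_ne h2, abs_lt] at h1
    push_cast
    omega
  have b2 : Thin (⋃ z : Fin r₁ × Fin r₂, {a : Ix r₁ r₂ → ℤ |
      |2 * a (.inl z.1) - a (.inr (.inl z.2))| < 6}) := by
    refine thin_iUnion _ fun z => thin_of_section _ (.inr (.inl z.2)) 12 fun a s hs => ?_
    refine card_le_of_subset_Icc (l := 2 * a (.inl z.1) - 6) fun t ht => ?_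
    have h1 := hs t ht
    have h2 : (Sum.inl z.1 : Ix r₁ r₂) ≠ Sum.inr (.inl z.2) := by simp
    change |2 * Function.update a (.inr (.inl z.2)) t (.inl z.1) -
      Function.update a (.inr (.inl z.2)) t (.inr (.inl z.2))| < 6 at h1
    rw [Function.update_self, Function.update_of_ne h2, abs_lt] at h1
    push_cast
    omega
  have b3 : Thin (⋃ z : {z : Fin r₂ × Fin r₂ // z.1 ≠ z.2}, {a : Ix r₁ r₂ → ℤ |
      |a (.inr (.inl z.1.1)) - a (.inr (.inl z.1.2))| < 6}) := by
    refine thin_iUnion _ fun z => thin_of_section _ (.inr (.inl z.1.1)) 12 fun a s hs => ?_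
    refine card_le_of_subset_Icc (l := a (.inr (.inl z.1.2)) - 6) fun t ht => ?_
    have h1 := hs t ht
    have h2 : (Sum.inr (.inl z.1.2) : Ix r₁ r₂) ≠ Sum.inr (.inl z.1.1) := by
      intro h
      exact z.2 (Sum.inl_injective (Sum.inr_injective h)).symm
    change |Function.update a (.inr (.inl z.1.1)) t (.inr (.inl z.1.1)) -
      Function.update a (.inr (.inl z.1.1)) t (.inr (.inl z.1.2))| < 6 at h1
    rw [Function.update_self, Function.update_of_ne h2, abs_lt] at h1
    push_cast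
    omega
  have b4 : Thin (⋃ j : Fin r₂, {a : Ix r₁ r₂ → ℤ | a (.inr (.inl j)) ^ 2 < 4 * a (.inr (.inr j)) ∧
      4 * a (.inr (.inr j)) - a (.inr (.inl j)) ^ 2 < 9}) := by
    refine thin_iUnion _ fun j => thin_of_section _ (.inr (.inr j)) 4 fun a s hs => ?_
    refine card_le_of_subset_Icc (l := a (.inr (.inl j)) ^ 2 / 4) fun t ht => ?_
    obtain ⟨h1, h1'⟩ := hs t ht
    have h2 : (Sum.inr (.inl j) : Ix r₁ r₂) ≠ Sum.inr (.inr j) := by simp
    rw [Function.update_self, Function.update_of_ne h2] at h1 h1'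
    push_cast
    omega
  refine (((b1.union b2).union b3).union b4).mono ?_
  rintro a ⟨hdisc, hsep⟩
  by_contra hcon
  simp only [Set.mem_union, not_or, Set.mem_iUnion, not_exists] at hcon
  obtain ⟨⟨⟨c1, c2⟩, c3⟩, c4⟩ := hcon
  apply hsep
  refine ⟨fun i i' hne => ?_, fun i j => ?_, fun j j' hne => ?_, fun j => ?_⟩
  · exact not_lt.1 fun h => c1 ⟨(i, i'), hne⟩ h
  · exact not_lt.1 fun h => c2 (i, j) h
  · exact not_lt.1 fun h => c3 ⟨(j, j'), hne⟩ h
  · exact not_lt.1 fun h => c4 j ⟨hdisc j, h⟩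

theorem thin_fails (p : ℕ) [hp : Fact p.Prime] (hpos : 0 < r₁ + r₂) :
    Thin {a : Ix r₁ r₂ → ℤ | Sep a ∧ FailsN (degs r₁ r₂) p (fun q => a (ixMap q))} := by
  classical
  have hne : Nonempty (Fin r₁ ⊕ Fin r₂) := by
    rcases Nat.eq_zero_or_pos r₁ with h | h
    · exact ⟨.inr ⟨0, by omega⟩⟩
    · exact ⟨.inl ⟨0, h⟩⟩
  have hm : ∀ i, 0 < degs r₁ r₂ i := by
    rintro (i | j)
    · exact one_pos
    · exact two_pos
  obtain ⟨i₀⟩ := hne
  obtain ⟨B, hB⟩ := section_lub p hm i₀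
  set q₀ : Par (degs r₁ r₂) := ⟨i₀, ⟨0, hm i₀⟩⟩ with hq₀
  have hupd : ∀ (a : Ix r₁ r₂ → ℤ) (t : ℤ), (fun q => Function.update a (ixMap q₀) t (ixMap q)) =
      Function.update (fun q => a (ixMap q)) q₀ t := fun a t =>
    Function.update_comp_eq_of_injective a ixMap_bijective.1 q₀ t
  refine thin_of_section _ (ixMap q₀) B fun a s hs => ?_
  rcases s.eq_empty_or_nonempty with hemp | ⟨t₀, ht₀⟩
  · rw [hemp]
    simp
  · refine hB (fun q => a (ixMap q)) (fun i l hi hl hil => ?_) s fun t ht => ?_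
    · have h1 := sep_coprime (hs t₀ ht₀).1 i l hil
      rw [hupd, gpoly_update_ne _ i₀ i hi (hm i₀), gpoly_update_ne _ i₀ l hl (hm i₀)] at h1
      exact h1
    · have h1 := (hs t ht).2
      rw [hupd] at h1
      exact h1

/-- **Codimension one.** -/
theorem box (p : ℕ) [hp : Fact p.Prime] (hpos : 0 < r₁ + r₂) :
    Thin {a : Ix r₁ r₂ → ℤ | (∀ j, a (.inr (.inl j)) ^ 2 < 4 * a (.inr (.inr j))) ∧
      ¬ (Irreducible ((prodPoly a - 1).map (Int.castRingHom ℚ)) ∧
        ∀ (K : Type) [Field K] [NumberField K] (θ : K),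
          IntermediateField.adjoin ℚ {θ} = ⊤ → aeval θ (prodPoly a - 1) = 0 →
          InfinitePlace.nrRealPlaces K = r₁ ∧ InfinitePlace.nrComplexPlaces K = r₂ ∧
          LeopoldtAt K p)} := by
  classical
  refine (thin_not_sep.union (thin_fails p hpos)).mono ?_
  rintro a ⟨hdisc, hbad⟩
  by_contra hcon
  rw [Set.mem_union, not_or] at hcon
  obtain ⟨c1, c2⟩ := hcon
  have hsep : Sep a := by
    by_contra h
    exact c1 ⟨hdisc, h⟩
  have hpos' : 0 < r₁ + 2 * r₂ := by omega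
  apply hbad
  refine ⟨hsep.irreducible hpos', fun K _ _ θ hgen hroot => ?_⟩
  obtain ⟨s1, s2, s3, s4⟩ := hsep.signature hpos' K θ hgen hroot
  refine ⟨s2, s3, ?_⟩
  by_contra hL
  apply c2
  refine ⟨hsep, K, inferInstance, inferInstance, θ, hgen, ?_, ?_, ?_, hL⟩
  · have h2 : fpoly (degs r₁ r₂) (fun q => a (ixMap q)) = prodPoly a - 1 := by
      unfold fpoly
      rw [prod_gpoly_ixMap]
    rw [h2]
    exact hroot
  · rw [s1, Fintype.sum_sum_type]
    simp
    ring
  · rw [s4]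
    simp

end Pool.Agent.LUB.H42B
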